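import Pool.Agent.Helper8_HK.Stmt0

/-! Module MTX of squad HK: calculus of the explicit matrices. -/

set_option autoImplicit false

namespace Pool.Agent.HK.H47

open Polynomial

variable {F : Type} [Field F]

theorem InO_mul (k l : ℤ) (x y : Kinf F) (hx : InO k x) (hy : InO l y) :
    InO (k + l) (x * y) ∧
      HahnSeries.coeff (x * y) (k + l) = HahnSeries.coeff x k * HahnSeries.coeff y l := by
  constructor
  · intro i hi
    rw [HahnSeries.coeff_mul]
    apply Finset.sum_eq_zero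
    intro p hp
    rw [Finset.mem_antidiagonal] at hp
    obtain ⟨h1, h2, h3⟩ := hp
    by_cases h : p.1 < k
    · rw [hx _ h, zero_mul]
    · rw [hy p.2 (by omega), mul_zero]
  · rw [HahnSeries.coeff_mul]
    by_cases h0 : HahnSeries.coeff x k * HahnSeries.coeff y l = 0
    · rw [h0]
      apply Finset.sum_eq_zero
      intro p hp
      rw [Finset.mem_antidiagonal] at hp
      obtain ⟨h1, h2, h3⟩ := hp
      by_cases h : p.1 < k
      · rw [hx _ h, zero_mul]
      · by_cases h' : p.2 < l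
        · rw [hy _ h', mul_zero]
        · have e1 : p.1 = k := by omega
          have e2 : p.2 = l := by omega
          rw [e1, e2, h0]
    · have hx0 : HahnSeries.coeff x k ≠ 0 := left_ne_zero_of_mul h0
      have hy0 : HahnSeries.coeff y l ≠ 0 := right_ne_zero_of_mul h0
      rw [Finset.sum_eq_single (k, l)]
      · intro p hp hne
        rw [Finset.mem_antidiagonal] at hp
        obtain ⟨h1, h2, h3⟩ := hp
        by_cases h : p.1 < k
        · rw [hx _ h, zero_mul]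
        · by_cases h' : p.2 < l
          · rw [hy _ h', mul_zero]
          · exfalso
            apply hne
            have e1 : p.1 = k := by omega
            have e2 : p.2 = l := by omega
            exact Prod.ext e1 e2
      · intro hn
        exfalso
        apply hn
        rw [Finset.mem_antidiagonal]
        exact ⟨hx0, hy0, rfl⟩

theorem InO_add (k : ℤ) (x y : Kinf F) (hx : InO k x) (hy : InO k y) : InO k (x + y) := by
  intro i hi
  rw [HahnSeries.coeff_add, hx i hi, hy i hi, add_zero]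

theorem InO_neg (k : ℤ) (x : Kinf F) (hx : InO k x) : InO k (-x) := by
  intro i hi
  rw [HahnSeries.coeff_neg, hx i hi, neg_zero]

theorem InO_sub (k : ℤ) (x y : Kinf F) (hx : InO k x) (hy : InO k y) : InO k (x - y) := by
  intro i hi
  rw [HahnSeries.coeff_sub, hx i hi, hy i hi, sub_zero]

theorem InO_mono (k l : ℤ) (h : l ≤ k) (x : Kinf F) (hx : InO k x) : InO l x :=
  fun i hi => hx i (lt_of_lt_of_le hi h)

theorem unif_ne : (unif F) ≠ 0 := by
  rw [unif]
  exact HahnSeries.single_ne_zero one_ne_zero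

theorem InO_single (k : ℤ) (a : F) : InO k (HahnSeries.single k a : Kinf F) := by
  intro i hi
  exact HahnSeries.coeff_single_of_ne (ne_of_lt hi)

theorem InO_inv (u : Kinf F) (h0 : InO 0 u) (h1 : HahnSeries.coeff u 0 ≠ 0) :
    InO 0 u⁻¹ ∧ HahnSeries.coeff u⁻¹ 0 ≠ 0 := by
  have hu : u ≠ 0 := by
    rintro rfl
    exact h1 (HahnSeries.coeff_zero)
  have hx : u⁻¹ ≠ 0 := inv_ne_zero hu
  set x : Kinf F := u⁻¹ with hxd
  have hm : HahnSeries.coeff x x.order ≠ 0 := by
    rw [Ne, HahnSeries.coeff_order_eq_zero]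
    exact hx
  have hO : InO x.order x := fun i hi => HahnSeries.coeff_eq_zero_of_lt_order hi
  have h2 := (InO_mul 0 x.order u x h0 hO).2
  have h3 : u * x = 1 := mul_inv_cancel₀ hu
  rw [h3, zero_add] at h2
  have h4 : x.order = 0 := by
    by_contra hne
    have h5 : HahnSeries.coeff (1 : Kinf F) x.order = 0 := by
      rw [HahnSeries.coeff_one, if_neg hne]
    rw [h5] at h2
    exact mul_ne_zero h1 hm h2.symm
  rw [h4] at hO hm
  exact ⟨hO, hm⟩

theorem mat_coe (a b c d : Kinf F) (h : a * d - b * c ≠ 0) :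
    ((mat a b c d : GLK F) : Matrix (Fin 2) (Fin 2) (Kinf F)) = Matrix.of ![![a, b], ![c, d]] := by
  have hd : (Matrix.of ![![a, b], ![c, d]]).det ≠ 0 := by
    rw [Matrix.det_fin_two]
    simpa using h
  rw [mat, dif_pos hd]
  rfl

theorem mat_entries (a b c d : Kinf F) (h : a * d - b * c ≠ 0) :
    (mat a b c d : GLK F) 0 0 = a ∧ (mat a b c d : GLK F) 0 1 = b ∧
      (mat a b c d : GLK F) 1 0 = c ∧ (mat a b c d : GLK F) 1 1 = d := by
  have e := mat_coe a b c d h
  refine ⟨?_, ?_, ?_, ?_⟩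
  · exact (congrFun (congrFun e 0) 0)
  · exact (congrFun (congrFun e 0) 1)
  · exact (congrFun (congrFun e 1) 0)
  · exact (congrFun (congrFun e 1) 1)

theorem glk_ext (g h : GLK F) (h00 : g 0 0 = h 0 0) (h01 : g 0 1 = h 0 1) (h10 : g 1 0 = h 1 0)
    (h11 : g 1 1 = h 1 1) : g = h := by
  apply Matrix.GeneralLinearGroup.ext
  intro i j
  fin_cases i <;> fin_cases j
  · exact h00
  · exact h01
  · exact h10
  · exact h11

theorem glk_det (g : GLK F) : g 0 0 * g 1 1 - g 0 1 * g 1 0 ≠ 0 := by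
  have h : (g : Matrix (Fin 2) (Fin 2) (Kinf F)).det ≠ 0 := by
    have := g.det.ne_zero
    rwa [Matrix.GeneralLinearGroup.val_det_apply] at this
  rwa [Matrix.det_fin_two] at h

theorem glk_eq (g : GLK F) : g = mat (g 0 0) (g 0 1) (g 1 0) (g 1 1) := by
  obtain ⟨e1, e2, e3, e4⟩ := mat_entries _ _ _ _ (glk_det g)
  exact glk_ext _ _ e1.symm e2.symm e3.symm e4.symm

theorem mul_entry (g h : GLK F) (i j : Fin 2) : (g * h) i j = g i 0 * h 0 j + g i 1 * h 1 j := by
  rw [Matrix.GeneralLinearGroup.coe_mul, Matrix.mul_apply, Fin.sum_univ_two]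

theorem mat_mul (a b c d a' b' c' d' : Kinf F) (h : a * d - b * c ≠ 0)
    (h' : a' * d' - b' * c' ≠ 0) :
    (mat a b c d : GLK F) * mat a' b' c' d' =
      mat (a * a' + b * c') (a * b' + b * d') (c * a' + d * c') (c * b' + d * d') := by
  have hd : (a * a' + b * c') * (c * b' + d * d') - (a * b' + b * d') * (c * a' + d * c') ≠ 0 := by
    have e : (a * a' + b * c') * (c * b' + d * d') - (a * b' + b * d') * (c * a' + d * c') =
        (a * d - b * c) * (a' * d' - b' * c') := by ring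
    rw [e]
    exact mul_ne_zero h h'
  obtain ⟨e1, e2, e3, e4⟩ := mat_entries _ _ _ _ h
  obtain ⟨f1, f2, f3, f4⟩ := mat_entries _ _ _ _ h'
  obtain ⟨g1, g2, g3, g4⟩ := mat_entries _ _ _ _ hd
  apply glk_ext
  · rw [mul_entry, e1, e2, f1, f3, g1]
  · rw [mul_entry, e1, e2, f2, f4, g2]
  · rw [mul_entry, e3, e4, f1, f3, g3]
  · rw [mul_entry, e3, e4, f2, f4, g4]

theorem mat_one : (mat (1 : Kinf F) 0 0 1 : GLK F) = 1 := by
  obtain ⟨e1, e2, e3, e4⟩ := mat_entries (1 : Kinf F) 0 0 1 (by simp)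
  apply glk_ext
  · rw [e1]; simp
  · rw [e2]; simp
  · rw [e3]; simp
  · rw [e4]; simp

theorem mat_inv (a b c d : Kinf F) (h : a * d - b * c ≠ 0) :
    (mat a b c d : GLK F)⁻¹ = mat (d / (a * d - b * c)) (-b / (a * d - b * c))
      (-c / (a * d - b * c)) (a / (a * d - b * c)) := by
  have hd : (d / (a * d - b * c)) * (a / (a * d - b * c)) -
      (-b / (a * d - b * c)) * (-c / (a * d - b * c)) ≠ 0 := by
    have e : (d / (a * d - b * c)) * (a / (a * d - b * c)) -
      (-b / (a * d - b * c)) * (-c / (a * d - b * c)) = (a * d - b * c)⁻¹ := by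
      field_simp
    rw [e]
    exact inv_ne_zero h
  symm
  apply eq_inv_of_mul_eq_one_right
  rw [mat_mul _ _ _ _ _ _ _ _ h hd, ← mat_one]
  congr 1
  · rw [← mul_div_assoc, ← mul_div_assoc, ← add_div, div_eq_one_iff_eq h]
    ring
  · rw [← mul_div_assoc, ← mul_div_assoc, ← add_div]
    have : a * -b + b * a = 0 := by ring
    rw [this, zero_div]
  · rw [← mul_div_assoc, ← mul_div_assoc, ← add_div]
    have : c * d + d * -c = 0 := by ring
    rw [this, zero_div]
  · rw [← mul_div_assoc, ← mul_div_assoc, ← add_div, div_eq_one_iff_eq h]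
    ring

theorem scal_comm (z : Kinf F) (g : GLK F) (hz : z ≠ 0) : g * scal z = scal z * g := by
  obtain ⟨e1, e2, e3, e4⟩ := mat_entries z 0 0 z (by simpa using hz)
  rw [scal]
  apply glk_ext
  · rw [mul_entry, mul_entry, e1, e2, e3]
    ring
  · rw [mul_entry, mul_entry, e1, e2, e4]
    ring
  · rw [mul_entry, mul_entry, e1, e3, e4]
    ring
  · rw [mul_entry, mul_entry, e2, e3, e4]
    ring

theorem scal_mul (z w : Kinf F) (hz : z ≠ 0) (hw : w ≠ 0) :
    scal z * scal w = (scal (z * w) : GLK F) := by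
  rw [scal, scal, mat_mul _ _ _ _ _ _ _ _ (by simpa using hz) (by simpa using hw), scal]
  congr 1 <;> ring

theorem iw_mul (k l : GLK F) (hk : k ∈ Iwahori) (hl : l ∈ Iwahori) : k * l ∈ Iwahori := by
  obtain ⟨a1, a2, a3, a4, a5, a6⟩ := hk
  obtain ⟨b1, b2, b3, b4, b5, b6⟩ := hl
  refine ⟨?_, ?_, ?_, ?_, ?_, ?_⟩
  · rw [mul_entry]
    exact InO_add 0 _ _ (InO_mul 0 0 _ _ a1 b1).1
      (InO_mono 1 0 (by norm_num) _ (InO_mul 0 1 _ _ a2 b3).1)
  · rw [mul_entry]
    exact InO_add 0 _ _ (InO_mul 0 0 _ _ a1 b2).1 (InO_mul 0 0 _ _ a2 b4).1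
  · rw [mul_entry]
    exact InO_add 1 _ _ (InO_mul 1 0 _ _ a3 b1).1 (InO_mul 0 1 _ _ a4 b3).1
  · rw [mul_entry]
    exact InO_add 0 _ _ (InO_mono 1 0 (by norm_num) _ (InO_mul 1 0 _ _ a3 b2).1)
      (InO_mul 0 0 _ _ a4 b4).1
  · rw [mul_entry, HahnSeries.coeff_add, (InO_mul 0 1 _ _ a2 b3).1 0 (by norm_num), add_zero]
    have := (InO_mul 0 0 _ _ a1 b1).2
    rw [add_zero] at this
    rw [this]
    exact mul_ne_zero a5 b5
  · rw [mul_entry, HahnSeries.coeff_add, (InO_mul 1 0 _ _ a3 b2).1 0 (by norm_num), zero_add]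
    have := (InO_mul 0 0 _ _ a4 b4).2
    rw [add_zero] at this
    rw [this]
    exact mul_ne_zero a6 b6

theorem iw_inv (k : GLK F) (hk : k ∈ Iwahori) : k⁻¹ ∈ Iwahori := by
  have hdet := glk_det k
  have hke := glk_eq k
  obtain ⟨a1, a2, a3, a4, a5, a6⟩ := hk
  set a := k 0 0
  set b := k 0 1
  set c := k 1 0
  set d := k 1 1
  have hD0 : InO 0 (a * d - b * c) :=
    InO_sub 0 _ _ (InO_mul 0 0 _ _ a1 a4).1 (InO_mono 1 0 (by norm_num) _ (InO_mul 0 1 _ _ a2 a3).1)
  have hD1 : HahnSeries.coeff (a * d - b * c) 0 ≠ 0 := by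
    rw [HahnSeries.coeff_sub, (InO_mul 0 1 _ _ a2 a3).1 0 (by norm_num), sub_zero]
    have := (InO_mul 0 0 _ _ a1 a4).2
    rw [add_zero] at this
    rw [this]
    exact mul_ne_zero a5 a6
  obtain ⟨i1, i2⟩ := InO_inv _ hD0 hD1
  have hd : (d / (a * d - b * c)) * (a / (a * d - b * c)) -
      (-b / (a * d - b * c)) * (-c / (a * d - b * c)) ≠ 0 := by
    have e : (d / (a * d - b * c)) * (a / (a * d - b * c)) -
      (-b / (a * d - b * c)) * (-c / (a * d - b * c)) = (a * d - b * c)⁻¹ := by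
      field_simp
    rw [e]
    exact inv_ne_zero hdet
  rw [hke, mat_inv _ _ _ _ hdet]
  obtain ⟨e1, e2, e3, e4⟩ := mat_entries _ _ _ _ hd
  refine ⟨?_, ?_, ?_, ?_, ?_, ?_⟩
  · rw [e1, div_eq_mul_inv]
    exact (InO_mul 0 0 _ _ a4 i1).1
  · rw [e2, div_eq_mul_inv]
    exact (InO_mul 0 0 _ _ (InO_neg 0 _ a2) i1).1
  · rw [e3, div_eq_mul_inv]
    exact (InO_mul 1 0 _ _ (InO_neg 1 _ a3) i1).1
  · rw [e4, div_eq_mul_inv]
    exact (InO_mul 0 0 _ _ a1 i1).1
  · rw [e1, div_eq_mul_inv]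
    have := (InO_mul 0 0 _ _ a4 i1).2
    rw [add_zero] at this
    rw [this]
    exact mul_ne_zero a6 i2
  · rw [e4, div_eq_mul_inv]
    have := (InO_mul 0 0 _ _ a1 i1).2
    rw [add_zero] at this
    rw [this]
    exact mul_ne_zero a5 i2

theorem flip_det : (0 : Kinf F) * 0 - 1 * unif F ≠ 0 := by
  have := unif_ne (F := F)
  simpa using this

theorem flip_flip : flipM * flipM = (scal (unif F) : GLK F) := by
  rw [flipM, mat_mul _ _ _ _ _ _ _ _ flip_det flip_det, scal]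
  congr 1 <;> ring

theorem InO_unif : InO 1 (unif F) := by
  rw [unif]
  exact InO_single 1 1

/-- Division by the uniformizer. -/
theorem div_unif (c : Kinf F) (hc : InO 1 c) : InO 0 (c / unif F) := by
  have hinv : (unif F)⁻¹ = HahnSeries.single (-1 : ℤ) (1 : F) := by
    apply inv_eq_of_mul_eq_one_right
    rw [unif, HahnSeries.single_mul_single]
    simp
  rw [div_eq_mul_inv, hinv]
  exact (InO_mul 1 (-1) _ _ hc (InO_single (-1) 1)).1

theorem iw_flip (k : GLK F) (hk : k ∈ Iwahori) : flipM⁻¹ * k * flipM ∈ Iwahori := by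
  have hu := unif_ne (F := F)
  have hdet := glk_det k
  have hke := glk_eq k
  obtain ⟨a1, a2, a3, a4, a5, a6⟩ := hk
  set a := k 0 0
  set b := k 0 1
  set c := k 1 0
  set d := k 1 1
  have hE : d * a - (c / unif F) * (b * unif F) ≠ 0 := by
    have e : d * a - (c / unif F) * (b * unif F) = a * d - b * c := by
      field_simp
    rw [e]
    exact hdet
  have key : flipM⁻¹ * k * flipM = (mat d (c / unif F) (b * unif F) a : GLK F) := by
    rw [mul_assoc, inv_mul_eq_iff_eq_mul, hke, flipM,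
      mat_mul _ _ _ _ _ _ _ _ hdet flip_det, mat_mul _ _ _ _ _ _ _ _ flip_det hE]
    congr 1
    · ring
    · ring
    · ring
    · field_simp
      ring
  rw [key]
  obtain ⟨e1, e2, e3, e4⟩ := mat_entries _ _ _ _ hE
  refine ⟨?_, ?_, ?_, ?_, ?_, ?_⟩
  · rw [e1]; exact a4
  · rw [e2]; exact div_unif c a3
  · rw [e3]
    exact (InO_mul 0 1 _ _ a2 InO_unif).1
  · rw [e4]; exact a1
  · rw [e1]; exact a6
  · rw [e4]; exact a5

theorem toK_entry (γ : GLA F) (i j : Fin 2) : (toK γ : GLK F) i j = emb F (γ i j) := by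
  rw [toK, Matrix.GeneralLinearGroup.map_apply]

theorem exists_gla (a b c d : F[X]) (h : IsUnit (a * d - b * c)) :
    ∃ γ : GLA F, γ 0 0 = a ∧ γ 0 1 = b ∧ γ 1 0 = c ∧ γ 1 1 = d := by
  have hd : IsUnit (Matrix.of ![![a, b], ![c, d]]).det := by
    rw [Matrix.det_fin_two]
    simpa using h
  refine ⟨Matrix.GeneralLinearGroup.mk'' (Matrix.of ![![a, b], ![c, d]]) hd, ?_, ?_, ?_, ?_⟩ <;>
    rfl

theorem emb_C (c : F) : emb F (C c) = cst F c := by
  rw [emb, Polynomial.coe_eval₂RingHom, Polynomial.eval₂_C]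

theorem gla_mul_entry (g h : GLA F) (i j : Fin 2) :
    (g * h) i j = g i 0 * h 0 j + g i 1 * h 1 j := by
  rw [Matrix.GeneralLinearGroup.coe_mul, Matrix.mul_apply, Fin.sum_univ_two]

theorem mtx : MTXStmt := by
  intro F _
  refine ⟨mat_entries, fun g => ⟨glk_eq g, glk_det g⟩, mat_mul, mat_inv, mat_one, scal_comm,
    scal_mul, iw_mul, iw_inv, iw_flip, flip_flip, ?_, exists_gla, ?_, ?_, ?_, ?_⟩
  · intro γ
    exact ⟨toK_entry γ 0 0, toK_entry γ 0 1, toK_entry γ 1 0, toK_entry γ 1 1⟩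
  · intro x n
    obtain ⟨γ, h1, h2, h3, h4⟩ := exists_gla (1 : F[X]) x 0 1 (by simp)
    refine ⟨γ, ?_, ?_⟩
    · show n ∣ γ 1 0
      rw [h3]
      exact dvd_zero n
    · obtain ⟨e1, e2, e3, e4⟩ := mat_entries (1 : Kinf F) (emb F x) 0 1 (by simp)
      apply glk_ext
      · rw [toK_entry, h1, e1, map_one]
      · rw [toK_entry, h2, e2]
      · rw [toK_entry, h3, e3, map_zero]
      · rw [toK_entry, h4, e4, map_one]
  · intro a d n ha hd
    obtain ⟨γ, h1, h2, h3, h4⟩ := exists_gla (C a : F[X]) 0 0 (C d) (by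
      rw [mul_zero, sub_zero, ← C_mul, Polynomial.isUnit_C]
      exact (mul_ne_zero ha hd).isUnit)
    refine ⟨γ, ?_, ?_⟩
    · show n ∣ γ 1 0
      rw [h3]
      exact dvd_zero n
    · have hca : ∀ c : F, c ≠ 0 → cst F c ≠ 0 := by
        intro c hc h
        exact hc ((map_eq_zero (cst F)).1 h)
      obtain ⟨e1, e2, e3, e4⟩ := mat_entries (cst F a) 0 0 (cst F d) (by
        rw [mul_zero, sub_zero]
        exact mul_ne_zero (hca a ha) (hca d hd))
      apply glk_ext
      · rw [toK_entry, h1, e1, emb_C]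
      · rw [toK_entry, h2, e2, map_zero]
      · rw [toK_entry, h3, e3, map_zero]
      · rw [toK_entry, h4, e4, emb_C]
  · intro n γ δ hγ hδ
    show n ∣ (γ * δ) 1 0
    rw [gla_mul_entry]
    exact dvd_add (Dvd.dvd.mul_right hγ _) (Dvd.dvd.mul_left hδ _)
  · intro n γ hγ
    show n ∣ (γ⁻¹) 1 0
    have hγ' : n ∣ γ 1 0 := hγ
    have h1 : (γ⁻¹ * γ) 1 0 = (γ⁻¹) 1 0 * γ 0 0 + (γ⁻¹) 1 1 * γ 1 0 := gla_mul_entry _ _ _ _
    have h2 : (γ⁻¹ * γ) 1 0 = 0 := by
      rw [inv_mul_cancel]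
      simp
    have h3 : (γ⁻¹ * γ) 1 1 = (γ⁻¹) 1 0 * γ 0 1 + (γ⁻¹) 1 1 * γ 1 1 := gla_mul_entry _ _ _ _
    have h4 : (γ⁻¹ * γ) 1 1 = 1 := by
      rw [inv_mul_cancel]
      simp
    have hdet : IsUnit (γ 0 0 * γ 1 1 - γ 0 1 * γ 1 0) := by
      have := γ.det.isUnit
      rw [Matrix.GeneralLinearGroup.val_det_apply, Matrix.det_fin_two] at this
      exact this
    have h5 : n ∣ (γ⁻¹) 1 0 * (γ 0 0 * γ 1 1 - γ 0 1 * γ 1 0) := by
      have e : (γ⁻¹) 1 0 * (γ 0 0 * γ 1 1 - γ 0 1 * γ 1 0) =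
          ((γ⁻¹) 1 0 * γ 0 0) * γ 1 1 - (γ⁻¹) 1 0 * γ 0 1 * γ 1 0 := by ring
      have e2 : (γ⁻¹) 1 0 * γ 0 0 = - ((γ⁻¹) 1 1 * γ 1 0) := by
        rw [h2] at h1
        exact eq_neg_of_add_eq_zero_left h1.symm
      rw [e, e2]
      apply dvd_sub
      · rw [neg_mul]
        exact (dvd_neg).2 (Dvd.dvd.mul_right (Dvd.dvd.mul_left hγ' _) _)
      · exact Dvd.dvd.mul_left hγ' _
    exact (hdet.dvd_mul_right).1 h5

end Pool.Agent.HK.H47
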